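import Pool.Agent.Helper62.PM.St

/-!
# Project PM, module D: the class S1 and the radii
-/

set_option autoImplicit false

open MeasureTheory Metric Set Filter Topology
open scoped RealInnerProductSpace ContDiff

namespace Pool.Agent.Helper55.PM

open Pool.Agent.Helper62.PM
open Pool.Agent.Helper62.Mink

private theorem ne0 {n : ℕ} {p : E n × E n} (hp : ON p) : p.1 ≠ 0 := by
  intro h
  have := hp.1
  rw [h, norm_zero] at this
  norm_num at this

private theorem dA {n : ℕ} {φ : E n → ℝ} (h : S1 φ) {x : E n} (hx : x ≠ 0) :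
    DifferentiableAt ℝ φ x := (cda h.smooth hx).differentiableAt (by simp)

private theorem dB {n : ℕ} {φ : E n → ℝ} (h : S1 φ) (e : E n) {x : E n} (hx : x ≠ 0) :
    DifferentiableAt ℝ (fun y => fderiv ℝ φ y e) x :=
  (cda1 h.smooth e hx).differentiableAt (by simp)

private theorem ev_ne {n : ℕ} {x : E n} (hx : x ≠ 0) : ∀ᶠ y in 𝓝 x, y ≠ 0 :=
  isOpen_compl_singleton.mem_nhds hx

private theorem p1 {n : ℕ} (φ ψ : E n → ℝ) (h1 : S1 φ) (h2 : S1 ψ) :
    S1 (fun z => φ z + ψ z) ∧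
      ∀ p : E n × E n, ON p → D2 (fun z => φ z + ψ z) p.2 p.1 = D2 φ p.2 p.1 + D2 ψ p.2 p.1 := by
  refine ⟨⟨fun c hc x => ?_, h1.smooth.add h2.smooth⟩, fun p hp => ?_⟩
  · simp only [h1.hom c hc x, h2.hom c hc x]
    ring
  · have hx := ne0 hp
    unfold D2
    have h3 : (fun y => fderiv ℝ (fun z => φ z + ψ z) y p.2) =ᶠ[𝓝 p.1]
        fun y => fderiv ℝ φ y p.2 + fderiv ℝ ψ y p.2 := by
      filter_upwards [ev_ne hx] with y hy
      rw [fderiv_fun_add (dA h1 hy) (dA h2 hy)]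
      rfl
    rw [h3.fderiv_eq, fderiv_fun_add (dB h1 _ hx) (dB h2 _ hx)]
    rfl

private theorem p2 {n : ℕ} (c : ℝ) (φ : E n → ℝ) (h1 : S1 φ) :
    S1 (fun z => c * φ z) ∧
      ∀ p : E n × E n, ON p → D2 (fun z => c * φ z) p.2 p.1 = c * D2 φ p.2 p.1 := by
  refine ⟨⟨fun d hd x => ?_, contDiffOn_const.mul h1.smooth⟩, fun p hp => ?_⟩
  · simp only [h1.hom d hd x]
    ring
  · have hx := ne0 hp
    unfold D2
    have h3 : (fun y => fderiv ℝ (fun z => c * φ z) y p.2) =ᶠ[𝓝 p.1]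
        fun y => c * fderiv ℝ φ y p.2 := by
      filter_upwards [ev_ne hx] with y hy
      rw [fderiv_const_mul (dA h1 hy)]
      rfl
    rw [h3.fderiv_eq, fderiv_const_mul (dB h1 _ hx)]
    rfl

private theorem p3 {n : ℕ} (θ : E n ≃ₗᵢ[ℝ] E n) (φ : E n → ℝ) (h1 : S1 φ) :
    S1 (fun z => φ (θ z)) ∧
      ∀ p : E n × E n, ON p → D2 (fun z => φ (θ z)) p.2 p.1 = D2 φ (θ p.2) (θ p.1) := by
  have hθ : ∀ y : E n, y ≠ 0 → θ y ≠ 0 := fun y hy h => hy (by simpa using h)
  refine ⟨⟨fun c hc x => ?_, ?_⟩, fun p hp => ?_⟩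
  · simp only [map_smul, h1.hom c hc]
  · refine h1.smooth.comp θ.contDiff.contDiffOn ?_
    intro y hy
    exact hθ y hy
  · have hx := ne0 hp
    unfold D2
    have h3 : (fun y => fderiv ℝ (fun z => φ (θ z)) y p.2) =ᶠ[𝓝 p.1]
        fun y => (fun z => fderiv ℝ φ z (θ p.2)) (θ y) := by
      filter_upwards [ev_ne hx] with y hy
      have h4 := (dA h1 (hθ y hy)).hasFDerivAt.comp y θ.hasFDerivAt
      have h5 : fderiv ℝ (fun z => φ (θ z)) y =
          (fderiv ℝ φ (θ y)).comp ((θ : E n ≃L[ℝ] E n) : E n →L[ℝ] E n) := h4.fderiv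
      rw [h5]
      rfl
    rw [h3.fderiv_eq]
    have h4 := (dB h1 (θ p.2) (hθ p.1 hx)).hasFDerivAt.comp p.1 θ.hasFDerivAt
    have h5 : fderiv ℝ (fun y => (fun z => fderiv ℝ φ z (θ p.2)) (θ y)) p.1 =
        (fderiv ℝ (fun z => fderiv ℝ φ z (θ p.2)) (θ p.1)).comp
          ((θ : E n ≃L[ℝ] E n) : E n →L[ℝ] E n) := h4.fderiv
    rw [h5]
    rfl

private theorem s1n {n : ℕ} : S1 (fun z : E n => ‖z‖) := by
  refine ⟨fun c hc x => ?_, fun x hx => ?_⟩
  · simp only [norm_smul, Real.norm_of_nonneg hc]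
  · exact (contDiffAt_norm ℝ hx).contDiffWithinAt

private theorem fn {n : ℕ} (z y : E n) (hz : z ≠ 0) :
    fderiv ℝ (fun z : E n => ‖z‖) z y = (inner ℝ z y : ℝ) / ‖z‖ := by
  have hz' : ‖z‖ ≠ 0 := norm_ne_zero_iff.2 hz
  have h1 := (hasDerivAt_line (dA s1n hz) y).fun_pow 2
  have h2 : HasDerivAt (fun τ : ℝ => ‖z‖ ^ 2 + 2 * inner ℝ z y * τ + ‖y‖ ^ 2 * τ ^ 2)
      (2 * inner ℝ z y) 0 := by
    have a := ((hasDerivAt_id (0 : ℝ)).const_mul (2 * (inner ℝ z y : ℝ))).const_add (‖z‖ ^ 2)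
    have b := ((hasDerivAt_id (0 : ℝ)).fun_pow 2).const_mul (‖y‖ ^ 2)
    simpa using a.fun_add b
  have h3 : (fun τ : ℝ => ‖z + τ • y‖ ^ 2) =
      fun τ : ℝ => ‖z‖ ^ 2 + 2 * inner ℝ z y * τ + ‖y‖ ^ 2 * τ ^ 2 := by
    funext τ
    rw [norm_add_sq_real, inner_smul_right, norm_smul, mul_pow, Real.norm_eq_abs, sq_abs]
    ring
  rw [h3] at h1
  have h4 := h1.unique h2
  simp only [zero_smul, add_zero] at h4
  rw [eq_div_iff hz']
  push_cast at h4
  simp only [pow_one] at h4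
  linarith

private theorem p4 {n : ℕ} :
    ∀ p : E n × E n, ON p → D2 (fun z : E n => ‖z‖) p.2 p.1 = 1 := by
  intro p hp
  have hx := ne0 hp
  obtain ⟨e1, e2, e3⟩ := hp
  unfold D2
  refine lineD (dB s1n _ hx) ?_
  have hne : ∀ τ : ℝ, p.1 + τ • p.2 ≠ 0 := by
    intro τ h
    have h1 : ‖p.1 + τ • p.2‖ ^ 2 = 1 + τ ^ 2 := by
      rw [norm_add_sq_real, inner_smul_right, e3, norm_smul, mul_pow, Real.norm_eq_abs, sq_abs,
        e1, e2]
      ring
    rw [h, norm_zero] at h1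
    nlinarith [sq_nonneg τ]
  have h1 : (fun τ : ℝ => fderiv ℝ (fun z : E n => ‖z‖) (p.1 + τ • p.2) p.2) =
      fun τ : ℝ => τ / ‖p.1 + τ • p.2‖ := by
    funext τ
    rw [fn _ _ (hne τ), inner_add_left, inner_smul_left, e3, real_inner_self_eq_norm_sq, e2]
    simp
  rw [h1]
  have hg := hasDerivAt_line (dA s1n hx) p.2
  have h2 := (hasDerivAt_id (0 : ℝ)).fun_div hg (by simpa using hx)
  simpa [e1] using h2

private theorem p5 {n : ℕ} (φ : E n → ℝ) (h1 : S1 φ) :
    Continuous φ ∧ ContinuousOn (fun p : E n × E n => D2 φ p.2 p.1) {p | ON p} := by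
  constructor
  · rw [continuous_iff_continuousAt]
    intro x
    by_cases hx : x = 0
    · subst hx
      have h0 : φ 0 = 0 := by
        have := h1.hom 0 le_rfl (0 : E n)
        simpa using this
      have hc : ContinuousOn φ (sphere (0 : E n) 1) := by
        refine h1.smooth.continuousOn.mono ?_
        intro y hy h
        rw [mem_sphere_zero_iff_norm] at hy
        rw [mem_singleton_iff] at h
        rw [h, norm_zero] at hy
        norm_num at hy
      obtain ⟨C, hC⟩ := (isCompact_sphere (0 : E n) 1).exists_bound_of_continuousOn hc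
      have hb : ∀ y : E n, ‖φ y - φ 0‖ ≤ C * ‖y‖ := by
        intro y
        rw [h0, sub_zero]
        by_cases hy : y = 0
        · subst hy
          rw [h0]
          simp
        · have hyn : ‖y‖ ≠ 0 := norm_ne_zero_iff.2 hy
          have h2 := h1.hom ‖y‖ (norm_nonneg y) (‖y‖⁻¹ • y)
          rw [smul_smul, mul_inv_cancel₀ hyn, one_smul] at h2
          have h3 := hC (‖y‖⁻¹ • y) (by
            rw [mem_sphere_zero_iff_norm, norm_smul, norm_inv, norm_norm, inv_mul_cancel₀ hyn])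
          rw [h2, norm_mul, norm_norm, mul_comm]
          exact mul_le_mul_of_nonneg_right h3 (norm_nonneg y)
      rw [ContinuousAt, tendsto_iff_norm_sub_tendsto_zero]
      refine squeeze_zero (fun y => norm_nonneg _) hb ?_
      have h4 : Tendsto (fun y : E n => C * ‖y‖) (𝓝 0) (𝓝 (C * ‖(0 : E n)‖)) :=
        (continuous_const.mul continuous_norm).tendsto 0
      simpa using h4
    · exact (cda h1.smooth hx).continuousAt
  · intro p hp
    have hx := ne0 hp
    have h2 : ContinuousAt (fderiv ℝ (fderiv ℝ φ)) p.1 :=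
      ((cdaF h1.smooth hx).fderiv_right (m := ∞) (by simp)).continuousAt
    have h3 : ContinuousAt (fun q : E n × E n => fderiv ℝ (fderiv ℝ φ) q.1) p :=
      ContinuousAt.comp (f := Prod.fst) h2 continuousAt_fst
    have h4 : ContinuousAt (fun q : E n × E n => fderiv ℝ (fderiv ℝ φ) q.1 q.2 q.2) p :=
      (h3.clm_apply continuousAt_snd).clm_apply continuousAt_snd
    refine (h4.continuousWithinAt).congr (fun q hq => ?_) ?_
    · exact D2_eq_Bf h1.smooth (ne0 hq) q.2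
    · exact D2_eq_Bf h1.smooth hx p.2

theorem hD : StD := fun _ =>
  ⟨p1, p2, p3, ⟨s1n, p4⟩, p5⟩

end Pool.Agent.Helper55.PM
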