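import Pool.Agent.Helper62.PM.St5

/-!
# Project PM, module PB: flattening preserves smooth sublinear functions
-/

set_option autoImplicit false

open MeasureTheory Metric Set Filter Topology
open scoped RealInnerProductSpace ContDiff

namespace Pool.Agent.Helper55.PM

open Pool.Agent.Helper62.PM
open Pool.Agent.Helper62.Mink

private theorem flat_zero {n : ℕ} (F : ℝ → ℝ) (h : E n → ℝ) (p : E n) (η : ℝ) :
    flat F h p η 0 = 0 := by
  unfold flat
  rw [inner_zero_right, norm_zero, zero_mul, add_zero]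

/-- the scalar inequality -/
private theorem scal {F : ℝ → ℝ} (hF : Fl F) {η r1 r2 r s1 s2 s : ℝ} (hη : 0 < η) (h1 : 0 < r1)
    (h2 : 0 < r2) (hr0 : 0 < r) (hr : r ≤ r1 + r2) (hs : s ≤ s1 + s2) :
    r * (η * F (s / (η * r))) ≤
      r1 * (η * F (s1 / (η * r1))) + r2 * (η * F (s2 / (η * r2))) := by
  have hR : 0 < r1 + r2 := by linarith
  have a1 : F (s / (η * r)) ≤ F ((s1 + s2) / (η * r)) :=
    hF.mono (div_le_div_of_nonneg_right hs (by positivity))
  have a2 : r / (r1 + r2) * F ((s1 + s2) / (η * r)) ≤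
      F (r / (r1 + r2) * ((s1 + s2) / (η * r))) :=
    hF.star _ _ (by positivity) (by rw [div_le_one hR]; exact hr)
  have e1 : r / (r1 + r2) * ((s1 + s2) / (η * r)) =
      (r1 / (r1 + r2)) • (s1 / (η * r1)) + (r2 / (r1 + r2)) • (s2 / (η * r2)) := by
    simp only [smul_eq_mul]
    field_simp
  have a3 : F ((r1 / (r1 + r2)) • (s1 / (η * r1)) + (r2 / (r1 + r2)) • (s2 / (η * r2))) ≤
      (r1 / (r1 + r2)) • F (s1 / (η * r1)) + (r2 / (r1 + r2)) • F (s2 / (η * r2)) :=
    hF.convex.2 (mem_univ _) (mem_univ _) (by positivity) (by positivity) (by field_simp)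
  rw [e1] at a2
  simp only [smul_eq_mul] at a2 a3
  have a4 := a2.trans a3
  have a5 : r * F ((s1 + s2) / (η * r)) ≤ r1 * F (s1 / (η * r1)) + r2 * F (s2 / (η * r2)) := by
    have a6 := mul_le_mul_of_nonneg_left a4 hR.le
    have e2 : (r1 + r2) * (r / (r1 + r2) * F ((s1 + s2) / (η * r))) =
        r * F ((s1 + s2) / (η * r)) := by
      field_simp
    have e3 : (r1 + r2) * (r1 / (r1 + r2) * F (s1 / (η * r1)) +
        r2 / (r1 + r2) * F (s2 / (η * r2))) =
        r1 * F (s1 / (η * r1)) + r2 * F (s2 / (η * r2)) := by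
      field_simp
    rw [e2, e3] at a6
    exact a6
  have a7 : r * F (s / (η * r)) ≤ r * F ((s1 + s2) / (η * r)) :=
    mul_le_mul_of_nonneg_left a1 hr0.le
  have a8 := mul_le_mul_of_nonneg_left (a7.trans a5) hη.le
  calc r * (η * F (s / (η * r))) = η * (r * F (s / (η * r))) := by ring
    _ ≤ η * (r1 * F (s1 / (η * r1)) + r2 * F (s2 / (η * r2))) := a8
    _ = _ := by ring

/-- Module PB. -/
theorem hPB : StPB := by
  intro n F h p η hF hS hsub hη
  have hhom : ∀ c : ℝ, 0 ≤ c → ∀ x, flat F h p η (c • x) = c * flat F h p η x := by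
    intro c hc x
    rcases hc.eq_or_lt with h0 | hc0
    · rw [← h0, zero_smul, flat_zero, zero_mul]
    · unfold flat
      rw [real_inner_smul_right, norm_smul, Real.norm_of_nonneg hc, hS.hom c hc x]
      have e : (c * h x - c * inner ℝ p x) / (η * (c * ‖x‖)) =
          (h x - inner ℝ p x) / (η * ‖x‖) := by
        rw [← mul_sub, mul_left_comm η c ‖x‖, mul_div_mul_left _ _ hc0.ne']
      rw [e]
      ring
  refine ⟨⟨hhom, ?_⟩, ⟨hhom, ?_⟩⟩
  · intro x hx
    have hx0 : x ≠ 0 := hx
    have n1 : ContDiffAt ℝ ∞ (fun y : E n => ‖y‖) x := contDiffAt_norm ℝ hx0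
    have n2 : ContDiffAt ℝ ∞ (fun y : E n => (inner ℝ p y : ℝ)) x :=
      (contDiff_const.inner ℝ contDiff_id).contDiffAt
    have n3 : ContDiffAt ℝ ∞ h x := (hS.smooth x hx).contDiffAt
      (isOpen_compl_singleton.mem_nhds hx0)
    have n4 : ContDiffAt ℝ ∞ (fun y : E n => (h y - inner ℝ p y) / (η * ‖y‖)) x := by
      refine (n3.sub n2).div (contDiffAt_const.mul n1) ?_
      exact mul_ne_zero hη.ne' (norm_ne_zero_iff.2 hx0)
    have n5 : ContDiffAt ℝ ∞ (fun y : E n => F ((h y - inner ℝ p y) / (η * ‖y‖))) x :=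
      hF.smooth.contDiffAt.comp x n4
    exact (n2.add (n1.mul (contDiffAt_const.mul n5))).contDiffWithinAt
  · intro x y
    by_cases hx : x = 0
    · rw [hx, zero_add, flat_zero, zero_add]
    by_cases hy : y = 0
    · rw [hy, add_zero, flat_zero, add_zero]
    by_cases hxy : x + y = 0
    · rw [hxy, flat_zero]
      unfold flat
      have e : (inner ℝ p x : ℝ) + inner ℝ p y = 0 := by
        rw [← inner_add_right, hxy, inner_zero_right]
      have f1 : 0 ≤ ‖x‖ * (η * F ((h x - inner ℝ p x) / (η * ‖x‖))) :=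
        mul_nonneg (norm_nonneg _) (mul_nonneg hη.le (hF.nonneg _))
      have f2 : 0 ≤ ‖y‖ * (η * F ((h y - inner ℝ p y) / (η * ‖y‖))) :=
        mul_nonneg (norm_nonneg _) (mul_nonneg hη.le (hF.nonneg _))
      linarith
    · have key := scal hF hη (norm_pos_iff.2 hx) (norm_pos_iff.2 hy) (norm_pos_iff.2 hxy)
        (norm_add_le x y) (s := h (x + y) - inner ℝ p (x + y)) (s1 := h x - inner ℝ p x)
        (s2 := h y - inner ℝ p y) (by
          rw [inner_add_right]
          have := hsub.add_le x y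
          linarith)
      unfold flat
      rw [inner_add_right] at key ⊢
      linarith

end Pool.Agent.Helper55.PM
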